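import Pool.Agent.U29.DZ.Stm

set_option autoImplicit false

namespace Pool.Agent.U29.DZ

open Finset MeasureTheory Filter Pool.Agent.U762.RP

theorem finite_lt (R : ℝ) : {x : ℤ | |(x : ℝ)| < R}.Finite := by
  refine (Set.finite_Icc (-⌈R⌉) ⌈R⌉).subset fun x hx => ?_
  have hx' : |(x : ℝ)| < R := hx
  have h1 := abs_lt.1 hx'
  have h2 := Int.le_ceil R
  constructor
  · have : ((-⌈R⌉ : ℤ) : ℝ) ≤ (x : ℝ) := by push_cast; linarith
    exact_mod_cast this
  · have : (x : ℝ) ≤ ((⌈R⌉ : ℤ) : ℝ) := by linarith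
    exact_mod_cast this

theorem sum_real_le (μ : Measure ℤ) [IsProbabilityMeasure μ] (s : Finset ℤ) :
    ∑ u ∈ s, μ.real {u} ≤ 1 := by
  have h : ∑ u ∈ s, μ {u} ≤ 1 := by
    have h1 : ∑ u ∈ s, μ {u} = μ (⋃ u ∈ s, {u}) := by
      rw [measure_biUnion_finset]
      · intro a _ b _ hab
        exact Set.disjoint_singleton.2 hab
      · intro b _
        exact measurableSet_singleton b
    rw [h1]
    exact prob_le_one
  have h2 : ∑ u ∈ s, μ.real {u} = (∑ u ∈ s, μ {u}).toReal := by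
    rw [ENNReal.toReal_sum]
    · rfl
    · intro a _
      exact measure_ne_top _ _
  rw [h2]
  exact ENNReal.toReal_le_of_le_ofReal zero_le_one (by rw [ENNReal.ofReal_one]; exact h)

theorem asm (hANA : S_ANAx) (hPRB : S_PRBx) (hSEQ : S_SEQ) (hTHR : S_THR) (hIDX : S_IDX)
    (hBC : S_BCx) (hORB : S_ORB) (hCYC : S_CYCx) (hLLN : S_LLN) (hSUP : S_SUP)
    (hLEN : Pool.Agent.U29.CY.S_LEN) (hFPP : Pool.Agent.U29.CY.S_FPP) : S_DZ := by
  classical
  intro d m r hrel hprod h hh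
  have hK : ∀ ε : ℝ, ∃ (K : ℕ) (η : ℝ), 0 < η ∧ (0 < ε → ε < 1 →
      ∀ B : ℕ, d ^ K ≤ B → ∃ M₀ C lam θ : ℝ, 1 ≤ M₀ ∧ 0 < C ∧ 0 < lam ∧ lam < 1 ∧ 0 < θ ∧ θ < 1 ∧
      ∀ M : ℝ, M₀ ≤ M → ∀ (Y : ℝ) (w : ℤ → ℤ → ℝ), Wts w B M Y η → Mass d w M Y ε K →
        ∀ (L : ℕ) (x : ℤ), (Qx d m r w B M Y)^[L] (V M θ) x ≤ C * lam ^ L * V M θ x) := by
    intro ε
    by_cases he : 0 < ε ∧ ε < 1
    · obtain ⟨K, η, h1, h2⟩ := hANA d m r hrel hprod ε he.1 he.2
      exact ⟨K, η, h1, fun _ _ => h2⟩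
    · exact ⟨0, 1, one_pos, fun h1 h2 => absurd ⟨h1, h2⟩ he⟩
  choose Kf ηf hη hdec using hK
  obtain ⟨ν, e, N, hprob, he, hν0, hN, hsupp, hmass, hslow⟩ :=
    hSEQ d hrel.two_le Kf ηf (fun e _ _ => hη e)
  have hd := fun j => hdec (e j) (he j).1 (he j).2 (N (j + 1)) ((hN j).2.2.trans (hN j).2.1)
  choose M₀ C lam θ h1M hC hlam hlam1 hθ hθ1 hdecj using hd
  have hApos : ∀ j, 0 < 4 / Real.log (1 / lam j) := by
    intro j
    refine div_pos (by norm_num) (Real.log_pos ?_)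
    rw [lt_div_iff₀ (hlam j), one_mul]
    exact hlam1 j
  have hL := fun j => hLEN d m r hrel (N (j + 1)) (4 / Real.log (1 / lam j)) (hApos j)
  choose S₀ hS1 hS using hL
  have hh' : ∀ j, ∃ G : ℝ, ∀ x : ℤ, G ≤ |(x : ℝ)| → N j ≤ h x := by
    intro j
    have h1 := hh.eventually (eventually_ge_atTop (N j))
    have h2 : {x : ℤ | ¬ N j ≤ h x}.Finite := eventually_cofinite.1 h1
    obtain ⟨b, hb⟩ := (h2.image fun x : ℤ => |(x : ℝ)|).bddAbove
    refine ⟨b + 1, fun x hx => ?_⟩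
    by_contra hc
    have h3 : |(x : ℝ)| ≤ b := hb ⟨x, hc, rfl⟩
    linarith
  choose G hG using hh'
  obtain ⟨X, hXm, hXt, hXb, hXsum⟩ := hTHR M₀ C lam θ (fun j => max (S₀ j) (G j))
    (fun j => ⟨h1M j, hC j, hlam j, hlam1 j, hθ j, hθ1 j⟩)
  have hX0 : ∀ j, X 0 ≤ X j := fun j => hXm.monotone (Nat.zero_le j)
  have hX1 : 1 ≤ X 0 := (h1M 0).trans (hXb 0).1
  set μ : ℤ → Measure ℤ := fun x => if |(x : ℝ)| < X 0 then Measure.dirac 0 else ν (idx X x) with hμ
  have hμin : ∀ x : ℤ, X 0 ≤ |(x : ℝ)| → μ x = ν (idx X x) := by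
    intro x hx
    simp only [hμ]
    rw [if_neg (not_lt.2 hx)]
  have hμout : ∀ x : ℤ, |(x : ℝ)| < X 0 → μ x = Measure.dirac 0 := by
    intro x hx
    simp only [hμ]
    rw [if_pos hx]
  have hμp : ∀ x, IsProbabilityMeasure (μ x) := by
    intro x
    by_cases hx : |(x : ℝ)| < X 0
    · rw [hμout x hx]; infer_instance
    · rw [hμin x (not_lt.1 hx)]; exact hprob _
  have hwin : ∀ (j : ℕ) (x : ℤ), X j ≤ |(x : ℝ)| → |(x : ℝ)| < X (j + 2) →
      μ x = ν j ∨ μ x = ν (j + 1) := by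
    intro j x h1 h2
    rw [hμin x ((hX0 j).trans h1)]
    by_cases h3 : |(x : ℝ)| < X (j + 1)
    · left
      rw [(hIDX X hXm hXt x).2.2.1 j h1 h3]
    · right
      rw [(hIDX X hXm hXt x).2.2.1 (j + 1) (not_lt.1 h3) h2]
  have hWts : ∀ j, Wts (fun x u => (μ x).real {u}) (N (j + 1)) (X j) (X (j + 2)) (ηf (e j)) := by
    intro j
    refine ⟨fun x u => measureReal_nonneg, fun x => ?_, ?_⟩
    · haveI := hμp x
      exact sum_real_le (μ x) _
    · intro x y hx1 hx2 hy1 hy2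
      have hsl := hslow j (N (j + 1))
      have hη' := (hη (e j)).le
      rcases hwin j x hx1 hx2 with hx | hx <;> rcases hwin j y hy1 hy2 with hy | hy
      · simp only [hx, hy, sub_self, abs_zero, sum_const_zero]
        exact hη'
      · simp only [hx, hy]
        exact hsl
      · simp only [hx, hy]
        simp_rw [abs_sub_comm ((ν (j + 1)).real _) ((ν j).real _)]
        exact hsl
      · simp only [hx, hy, sub_self, abs_zero, sum_const_zero]
        exact hη'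
  have hMass : ∀ j, Mass d (fun x u => (μ x).real {u}) (X j) (X (j + 2)) (e j) (Kf (e j)) := by
    intro j x u hx1 hx2 hu1 hu2
    rcases hwin j x hx1 hx2 with hx | hx
    · simp only [hx]
      exact (hmass j u hu1 hu2).1
    · simp only [hx]
      exact (hmass j u hu1 hu2).2
  have hdecay : ∀ (j L : ℕ) (x : ℤ), (Qx d m r (fun x u => (μ x).real {u}) (N (j + 1)) (X j)
      (X (j + 2)))^[L] (V (X j) (θ j)) x ≤ C j * lam j ^ L * V (X j) (θ j) x :=
    fun j L x => hdecj j (X j) (hXb j).1 (X (j + 2)) _ (hWts j) (hMass j) L x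
  have hsup1 : ∀ x : ℤ, X 0 ≤ |(x : ℝ)| → μ x {u : ℤ | (N (idx X x) : ℤ) < |u|} = 0 := by
    intro x hx
    rw [hμin x hx]
    refine measure_mono_null ?_ (hsupp (idx X x))
    intro u hu
    have hu' : (N (idx X x) : ℤ) < |u| := hu
    by_cases h0 : u < 0
    · exact Or.inl h0
    · right
      rw [abs_of_nonneg (not_lt.1 h0)] at hu'
      exact hu'.le
  have hidx : Tendsto (fun x : ℤ => idx X x) cofinite atTop := by
    rw [tendsto_atTop]
    intro n
    rw [eventually_cofinite]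
    refine (finite_lt (X n)).subset fun x hx => ?_
    have hx' : ¬ n ≤ idx X x := hx
    have h1 := (hIDX X hXm hXt x).2.1
    exact h1.trans_le (hXm.monotone (by omega))
  have hzero : Tendsto (fun x => (μ x).real {0}) cofinite (nhds 1) := by
    have h1 : Tendsto (fun x : ℤ => (ν (idx X x)).real {0}) cofinite (nhds 1) := hν0.comp hidx
    refine h1.congr' ?_
    have h2 : ∀ᶠ x : ℤ in cofinite, ¬ |(x : ℝ)| < X 0 := by
      rw [eventually_cofinite]
      simp only [not_not]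
      exact finite_lt (X 0)
    filter_upwards [h2] with x hx
    rw [hμin x (not_lt.1 hx)]
  refine ⟨μ, hμp, hzero, ?_⟩
  have := hμp
  have hbad := hBC hPRB hIDX d m r X C lam θ N μ hXm hXt hX1
    (fun j => ⟨hC j, hlam j, hlam1 j, hθ j, hθ1 j⟩) (fun j => (hN j).2.1) hsup1 hdecay hXsum
  have hs := hSUP μ (fun x => if |(x : ℝ)| < X 0 then {u : ℤ | u ≠ 0} else
    {u : ℤ | u < 0 ∨ (N (idx X x) : ℤ) ≤ u}) (by
      intro x
      by_cases hx : |(x : ℝ)| < X 0
      · rw [if_pos hx, hμout x hx]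
        rw [Measure.dirac_apply' _ MeasurableSet.of_discrete]
        simp
      · rw [if_neg hx, hμin x (not_lt.1 hx)]
        exact hsupp _)
  have hlln := hLLN μ hzero
  filter_upwards [hbad, hs, hlln] with ω h1 h2 h3
  have hout : ∀ x : ℤ, |(x : ℝ)| < X 0 → ω x = 0 := by
    intro x hx
    have := h2 x
    rw [if_pos hx] at this
    by_contra hc
    exact this hc
  have hin : ∀ x : ℤ, X 0 ≤ |(x : ℝ)| → 0 ≤ ω x ∧ ω x < (N (idx X x) : ℤ) := by
    intro x hx
    have := h2 x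
    rw [if_neg (not_lt.2 hx)] at this
    constructor
    · by_contra hc
      exact this (Or.inl (not_le.1 hc))
    · by_contra hc
      exact this (Or.inr (not_lt.1 hc))
  have hfin := hORB hIDX d m r lam X ω hXm hXt h1
  obtain ⟨S, hScyc⟩ := hCYC hIDX d m r lam X N ω hXm hXt (fun j => ⟨hlam j, hlam1 j⟩)
    (fun j => (hN j).2.1)
    (fun j ω' hω' x hx hmin hXj => hS j ω' hω' x hx hmin
      (((le_max_left _ _).trans (hXb j).2).trans hXj))
    (fun x hx => by
      have := hin x hx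
      rw [abs_of_nonneg this.1]
      exact this.2.le) hout h1
  obtain ⟨h5, h6⟩ := hFPP (stp d m r ω) S hfin hScyc
  refine ⟨fun x => ?_, h3, h5, h6⟩
  by_cases hx : |(x : ℝ)| < X 0
  · rw [hout x hx]
    exact ⟨le_rfl, by positivity⟩
  · have h7 := hin x (not_lt.1 hx)
    refine ⟨h7.1, ?_⟩
    have h8 : G (idx X x) ≤ |(x : ℝ)| :=
      ((le_max_right _ _).trans (hXb (idx X x)).2).trans ((hIDX X hXm hXt x).1 (not_lt.1 hx))
    have h9 := hG (idx X x) x h8
    have h10 : (N (idx X x) : ℤ) ≤ (h x : ℤ) := by exact_mod_cast h9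
    linarith

end Pool.Agent.U29.DZ
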