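import Pool.Agent.U29.CY.Stm2

set_option autoImplicit false

/-!
# Project DZ: perturbations of generalized Collatz maps on a set of density zero

Independent perturbations `ω_x` of `T(x)` with laws that depend on `x`: `P(ω_x ≠ 0) → 0` and
`0 ≤ ω_x ≤ h(|x|)`, `h → ∞` arbitrarily slowly.  Everything is modelled on project RP
(`Pool.Agent.U762.RP.Stm`: `T`, `Rel`, `V`, `fac`, `g`, `stp`, `S_EXP`, `S_REC`, proofs
`Pool/Agent/U594/RP/AVG.lean`, `U97/RP/WC.lean`, `U111/RP/ANA.lean`, `U511/RP/PRB.lean`,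
`U898/RP/DET.lean`) and on project CY (`Pool.Agent.U29.CY.Stm`, `Stm2`).
-/

namespace Pool.Agent.U29.DZ

open Finset MeasureTheory Filter Pool.Agent.U762.RP

/-- transition operator with position dependent weights, killed outside the window `M ≤ |x| < Y` -/
noncomputable def Qx (d : ℕ) (m r : ℤ → ℤ) (w : ℤ → ℤ → ℝ) (B : ℕ) (M Y : ℝ) (F : ℤ → ℝ) (x : ℤ) : ℝ :=
  if M ≤ |(x : ℝ)| ∧ |(x : ℝ)| < Y then ∑ u ∈ Icc (-(B : ℤ)) B, w x u * F (T d m r x + u) else 0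

/-- weights: non-negative, mass at most `1`, in the window nearly independent of the position -/
structure Wts (w : ℤ → ℤ → ℝ) (B : ℕ) (M Y η : ℝ) : Prop where
  nonneg : ∀ x u : ℤ, 0 ≤ w x u
  sum_le : ∀ x : ℤ, ∑ u ∈ Icc (-(B : ℤ)) B, w x u ≤ 1
  slow : ∀ x y : ℤ, M ≤ |(x : ℝ)| → |(x : ℝ)| < Y → M ≤ |(y : ℝ)| → |(y : ℝ)| < Y →
    ∑ u ∈ Icc (-(B : ℤ)) B, |w x u - w y u| ≤ η

/-- mass at least `ε / d^K` at `0, …, d^K - 1`, in the window -/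
def Mass (d : ℕ) (w : ℤ → ℤ → ℝ) (M Y ε : ℝ) (K : ℕ) : Prop := ∀ x u : ℤ, M ≤ |(x : ℝ)| → |(x : ℝ)| < Y →
  0 ≤ u → u < (d : ℤ) ^ K → ε / (d : ℝ) ^ K ≤ w x u

/-- **AVGx** (averages over arithmetic progressions).  Adapt `Pool/Agent/U594/RP/AVG.lean`.  First
`(Qx)^k V (y) ≤ R^k |y|^θ` for all `y` (induction; `|T y + u| ≤ fac_j |y|` for `|y| ≥ M ≥ M₀`, `|u| ≤ B`).  Then
induction on `k`: for a fixed residue `s`, either no `x_v` lies in the window (all terms `0`), or fix one such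
`x_*`; then `∑_u w(x_v,u) G(T x_v+u) ≤ ∑_u w(x_*,u) G(T x_v+u) + ∑_u |w(x_v,u) - w(x_*,u)| G(T x_v+u)`,
`G = Qx^k V`, the last sum is `≤ η R^k (fac_j z)^θ`; the first, summed over `v`, is bounded by the induction
hypothesis.  With `A_k = ρ^k + η k R^k`, `ρ = (∑ fac^θ)/d ≤ R`: `ρ (A_k + η R^k) ≤ A_(k+1)`. -/
def S_AVGx : Prop := ∀ (d : ℕ) (m r : ℤ → ℤ), Rel d m r → ∀ θ ζ : ℝ, 0 < θ → θ < 1 → 0 < ζ → ∀ B : ℕ,
  ∃ M₀ : ℝ, 1 ≤ M₀ ∧ ∀ M : ℝ, M₀ ≤ M → ∀ (Y η R : ℝ) (w : ℤ → ℤ → ℝ), 0 ≤ η → Wts w B M Y η → 1 ≤ R →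
    (∀ j ∈ range d, fac d m ζ j ^ θ ≤ R) → ∀ k i : ℕ, k ≤ i → ∀ c y : ℤ, IsCoprime c (d : ℤ) →
      ∀ z : ℝ, 0 ≤ z → (∀ u : ℕ, u < d ^ i → |((y + c * u : ℤ) : ℝ)| ≤ z) →
      ∑ u ∈ range (d ^ i), (Qx d m r w B M Y)^[k] (V M θ) (y + c * u) ≤
        (d : ℝ) ^ i * (((∑ j ∈ range d, fac d m ζ j ^ θ) / d) ^ k + η * k * R ^ k) * z ^ θ

/-- **WCx** (worst case), from AVGx.  Adapt `Pool/Agent/U97/RP/WC.lean`.  The bounds satisfy `h_0 = 1`,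
`h_(k+1) = R (ε (ρ^k + η k R^k) + (1-ε) h_k) ≤ g_(k+1) + η (k+1)^2 R^(k+1)`. -/
def S_WCx : Prop := ∀ (d : ℕ) (m r : ℤ → ℤ), Rel d m r → ∀ θ ζ : ℝ, 0 < θ → θ < 1 → 0 < ζ → ∀ B : ℕ,
  ∃ M₀ : ℝ, 1 ≤ M₀ ∧ ∀ M : ℝ, M₀ ≤ M → ∀ (Y η R ε : ℝ) (K : ℕ) (w : ℤ → ℤ → ℝ), 0 ≤ η → Wts w B M Y η →
    1 ≤ R → 0 < ε → ε < 1 → d ^ K ≤ B → (∀ j ∈ range d, fac d m ζ j ^ θ ≤ R) → Mass d w M Y ε K →
      ∀ k : ℕ, k ≤ K + 1 → ∀ x : ℤ, (Qx d m r w B M Y)^[k] (V M θ) x ≤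
        (g ε R ((∑ j ∈ range d, fac d m ζ j ^ θ) / d) k + η * (k : ℝ) ^ 2 * R ^ k) * |(x : ℝ)| ^ θ

/-- **ANAx** (exponential decay), from EXP, REC, WCx.  Adapt `Pool/Agent/U111/RP/ANA.lean`: `R = max 1 (max fac^θ)`,
`K ≥ 1` with `g_K ≤ 1/4`, `η = 1/(4 K^2 R^K)`; then `Qx^K V ≤ V/2` pointwise. -/
def S_ANAx : Prop := ∀ (d : ℕ) (m r : ℤ → ℤ), Rel d m r →
  (∏ j ∈ range d, m (j : ℤ)) < (d : ℤ) ^ d → ∀ ε : ℝ, 0 < ε → ε < 1 → ∃ (K : ℕ) (η : ℝ), 0 < η ∧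
    ∀ B : ℕ, d ^ K ≤ B → ∃ M₀ C lam θ : ℝ, 1 ≤ M₀ ∧ 0 < C ∧ 0 < lam ∧ lam < 1 ∧ 0 < θ ∧ θ < 1 ∧
      ∀ M : ℝ, M₀ ≤ M → ∀ (Y : ℝ) (w : ℤ → ℤ → ℝ), Wts w B M Y η → Mass d w M Y ε K →
        ∀ (L : ℕ) (x : ℤ), (Qx d m r w B M Y)^[L] (V M θ) x ≤ C * lam ^ L * V M θ x

/-- the first `L` points of the orbit are different and in the window, the next one is in `S` -/
def Pth (d : ℕ) (m r : ℤ → ℤ) (M Y : ℝ) (L : ℕ) (S : Set ℤ) (x : ℤ) (ω : ℤ → ℤ) : Prop :=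
  (∀ i : ℕ, i < L → M ≤ |(((stp d m r ω)^[i] x : ℤ) : ℝ)| ∧ |(((stp d m r ω)^[i] x : ℤ) : ℝ)| < Y) ∧
    (∀ i j : ℕ, i < j → j < L → (stp d m r ω)^[i] x ≠ (stp d m r ω)^[j] x) ∧ (stp d m r ω)^[L] x ∈ S

/-- **PRBx** (from the environment to the annealed chain).  Adapt `Pool/Agent/U511/RP/PRB.lean` (theorem `main`,
induction on `L` with a finite set of fixed coordinates) or `Pool/Agent/U898/CY/PRC.lean`. -/
def S_PRBx : Prop := ∀ (d : ℕ) (m r : ℤ → ℤ) (μ : ℤ → Measure ℤ) [∀ x, IsProbabilityMeasure (μ x)]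
  (B : ℕ) (M Y : ℝ), (∀ x : ℤ, M ≤ |(x : ℝ)| → |(x : ℝ)| < Y → μ x {u : ℤ | (B : ℤ) < |u|} = 0) →
    ∀ (L : ℕ) (S : Set ℤ) (x : ℤ), (Measure.infinitePi μ) {ω | Pth d m r M Y L S x ω} ≤
      ENNReal.ofReal ((Qx d m r (fun x u => (μ x).real {u}) B M Y)^[L] (S.indicator fun _ => 1) x)

/-- **SEQ** (a slowly varying sequence of laws).  `ν j` is carried by `{0, …, N j - 1}`, `ν j {0} → 1`, both
`ν j` and `ν (j+1)` have mass `≥ e j / d^K` at `0, …, d^K - 1`, `K = Kf (e j)`, and their distance is `≤ ηf (e j)`.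
Proof.  Stages `t = 1, 2, …`: `a_t = 1/(t+1)`, `e^t = a_(t+1)/2`, `K_t = Kf (e^t)`, `η_t = ηf (e^t)`,
`ν^t = (1 - a_t) δ_0 + (a_t/2) Unif[0,d^(K_(t-1))) + (a_t/2) Unif[0,d^(K_t))`; both `ν^t` and `ν^(t+1)` (and their
convex combinations) have mass `≥ e^t/d^(K_t)` on `[0,d^(K_t))`.  Go from `ν^t` to `ν^(t+1)` in `n_t ≥ 2/η_t` equal
steps along the segment.  (`rare` in `Pool/Agent/U762/RP/Fin.lean` may help.  One may describe the sequence by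
real parameters `τ_0 = 1`, `τ_(j+1) = min (⌊τ_j⌋ + 1) (τ_j + 1/n_⌊τ_j⌋)`, `ν_τ = (1-{τ}) ν^⌊τ⌋ + {τ} ν^(⌊τ⌋+1)`.) -/
def S_SEQ : Prop := ∀ (d : ℕ), 2 ≤ d → ∀ (Kf : ℝ → ℕ) (ηf : ℝ → ℝ), (∀ e, 0 < e → e < 1 → 0 < ηf e) →
  ∃ (ν : ℕ → Measure ℤ) (e : ℕ → ℝ) (N : ℕ → ℕ), (∀ j, IsProbabilityMeasure (ν j)) ∧
    (∀ j, 0 < e j ∧ e j < 1) ∧ Tendsto (fun j => (ν j).real {0}) atTop (nhds 1) ∧
    (∀ j, 1 ≤ N j ∧ N j ≤ N (j + 1) ∧ (d : ℕ) ^ Kf (e j) ≤ N j) ∧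
    (∀ j, ν j {u : ℤ | u < 0 ∨ (N j : ℤ) ≤ u} = 0) ∧
    (∀ j, ∀ u : ℤ, 0 ≤ u → u < (d : ℤ) ^ Kf (e j) → e j / (d : ℝ) ^ Kf (e j) ≤ (ν j).real {u} ∧
      e j / (d : ℝ) ^ Kf (e j) ≤ (ν (j + 1)).real {u}) ∧
    ∀ (j B : ℕ), ∑ u ∈ Icc (-(B : ℤ)) B, |(ν j).real {u} - (ν (j + 1)).real {u}| ≤ ηf (e j)

/-- index of the shell of `x`: `X j ≤ |x| < X (j+1)` -/
noncomputable def idx (X : ℕ → ℝ) (x : ℤ) : ℕ := sSup {j : ℕ | X j ≤ |(x : ℝ)|}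

/-- the time allowed at `x` in shell `j` -/
noncomputable def Lt (lam : ℕ → ℝ) (j : ℕ) (x : ℤ) : ℕ := ⌈4 / Real.log (1 / lam j) * Real.log (2 + |(x : ℝ)|)⌉₊

/-- **THR** (thresholds).  The thresholds are chosen by recursion, `X (j+2)` after `X (j+1)`.  For
`X j ≤ |x| < X (j+1)` (finitely many `x` for each `j`) the first term is at most `C_j (2+|x|)^(-4) |x|`, with sum
`≤ C_j c / X j ≤ 4^(-j)` if `X j` is large; the second is `C_j/(1-lam_j) |x|^(θ_j) X_(j+2)^(-θ_j)`, with sum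
`≤ 4^(-j)` if `X (j+2)` is large in terms of `X (j+1)`.  It is enough that the total sum is finite. -/
def S_THR : Prop := ∀ M₀ C lam θ H : ℕ → ℝ, (∀ j, 1 ≤ M₀ j ∧ 0 < C j ∧ 0 < lam j ∧ lam j < 1 ∧ 0 < θ j ∧
  θ j < 1) → ∃ X : ℕ → ℝ, StrictMono X ∧ Tendsto X atTop atTop ∧ (∀ j, M₀ j ≤ X j ∧ H j ≤ X j) ∧
    ∑' x : ℤ, (if X 0 ≤ |(x : ℝ)| then
      ENNReal.ofReal (C (idx X x) * lam (idx X x) ^ Lt lam (idx X x) x * |(x : ℝ)| ^ θ (idx X x)) +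
      ∑' L : ℕ, ENNReal.ofReal (C (idx X x) * lam (idx X x) ^ L * |(x : ℝ)| ^ θ (idx X x) *
        X (idx X x + 2) ^ (-θ (idx X x))) else 0) ≠ ⊤

/-- **IDX**: elementary properties of `idx` for a strictly increasing sequence which tends to infinity. -/
def S_IDX : Prop := ∀ X : ℕ → ℝ, StrictMono X → Tendsto X atTop atTop → ∀ x : ℤ,
  (X 0 ≤ |(x : ℝ)| → X (idx X x) ≤ |(x : ℝ)|) ∧ |(x : ℝ)| < X (idx X x + 1) ∧
    (∀ j : ℕ, X j ≤ |(x : ℝ)| → |(x : ℝ)| < X (j + 1) → idx X x = j) ∧ ∀ j : ℕ, |(x : ℝ)| < X (j + 1) → idx X x ≤ j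

/-- the bad event at `x`: the orbit stays in `[X j, X (j+2))` for the allowed time, or leaves it upwards -/
def Bad (d : ℕ) (m r : ℤ → ℤ) (lam X : ℕ → ℝ) (x : ℤ) (ω : ℤ → ℤ) : Prop :=
  Pth d m r (X (idx X x)) (X (idx X x + 2)) (Lt lam (idx X x) x) {y | X (idx X x) ≤ |(y : ℝ)|} x ω ∨
    ∃ L : ℕ, Pth d m r (X (idx X x)) (X (idx X x + 2)) L {y | X (idx X x + 2) ≤ |(y : ℝ)|} x ω

/-- **BCx** (Borel–Cantelli), from PRBx and IDX.  For `x` in shell `j`, `M = X j`, `Y = X (j+2)`: in the window the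
laws are `ν j`, `ν (j+1)`, so `Wts` holds with `η j` and `Mass` with `e j`; `B = N (j+1)` (the hypothesis `hdec` is
the conclusion of ANAx for this window).  PRBx bounds the probability of the first event by
`Qx^L (1_{|y| ≥ X j}) x ≤ Qx^L (V M θ) x ≤ C lam^L |x|^θ` (`X j ≥ 1`), and that of the second for each `L` by
`Y^(-θ) Qx^L (V M θ) x`.  Sum over `L` and `x`, `measure_setOf_frequently_eq_zero` or
`ae_finite_setOf_mem`/`measure_limsup_cofinite_eq_zero`. -/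
def S_BCx : Prop := S_PRBx → S_IDX → ∀ (d : ℕ) (m r : ℤ → ℤ) (X C lam θ : ℕ → ℝ) (N : ℕ → ℕ)
  (μ : ℤ → Measure ℤ) [∀ x, IsProbabilityMeasure (μ x)], StrictMono X → Tendsto X atTop atTop → 1 ≤ X 0 →
    (∀ j, 0 < C j ∧ 0 < lam j ∧ lam j < 1 ∧ 0 < θ j ∧ θ j < 1) → (∀ j, N j ≤ N (j + 1)) →
    (∀ x : ℤ, X 0 ≤ |(x : ℝ)| → μ x {u : ℤ | (N (idx X x) : ℤ) < |u|} = 0) →
    (∀ (j L : ℕ) (x : ℤ), (Qx d m r (fun x u => (μ x).real {u}) (N (j + 1)) (X j) (X (j + 2)))^[L]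
      (V (X j) (θ j)) x ≤ C j * lam j ^ L * V (X j) (θ j) x) →
    ∑' x : ℤ, (if X 0 ≤ |(x : ℝ)| then
      ENNReal.ofReal (C (idx X x) * lam (idx X x) ^ Lt lam (idx X x) x * |(x : ℝ)| ^ θ (idx X x)) +
      ∑' L : ℕ, ENNReal.ofReal (C (idx X x) * lam (idx X x) ^ L * |(x : ℝ)| ^ θ (idx X x) *
        X (idx X x + 2) ^ (-θ (idx X x))) else 0) ≠ ⊤ →
    ∀ᵐ ω ∂(Measure.infinitePi μ), {x : ℤ | X 0 ≤ |(x : ℝ)| ∧ Bad d m r lam X x ω}.Finite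

/-- **ORB** (deterministic: all orbits finite), from IDX.  Let `F` be the finite set of the `x` with `|x| < X 0` or
`Bad`.  If `x ∉ F`, then the orbit of `x` has two equal terms or reaches a point `y` with `|y| < X (idx x)`, so
`y ∈ F` or `idx y < idx x`; by strong induction on `idx x` the orbit of every `x ∉ F` has two equal terms or
reaches `F`.  An orbit with different terms reaches `F` at arbitrarily late times, impossible as `F` is finite. -/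
def S_ORB : Prop := S_IDX → ∀ (d : ℕ) (m r : ℤ → ℤ) (lam X : ℕ → ℝ) (ω : ℤ → ℤ), StrictMono X →
  Tendsto X atTop atTop → {x : ℤ | X 0 ≤ |(x : ℝ)| ∧ Bad d m r lam X x ω}.Finite →
    ∀ x : ℤ, (Set.range fun i : ℕ => (stp d m r ω)^[i] x).Finite

/-- **CYCx** (deterministic: cycles have a bounded smallest element), from LEN and IDX.  `hS`: the conclusion of
LEN for `B = N (j+1)` and `A = 4 / log(1/lam j)` holds from `X j` on.  Let `x`, `|x| ≥ X 0`, have the smallest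
modulus of its cycle, `j = idx x`, `n` its minimal period, and suppose that `x` is not `Bad`.  All terms have
modulus `≥ |x| ≥ X j`; they are `< X (j+2)` (otherwise the first exit gives the second event of `Bad`), and
`n < Lt j x` (otherwise the first event); so `n < A log(2+|x|) + 1`.  The perturbation
`ω' = ω` for `|x| < X (j+2)`, `0` otherwise, is bounded by `N (j+1)` and has the same cycle: contradiction to LEN. -/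
def S_CYCx : Prop := S_IDX → ∀ (d : ℕ) (m r : ℤ → ℤ) (lam X : ℕ → ℝ) (N : ℕ → ℕ) (ω : ℤ → ℤ),
  StrictMono X → Tendsto X atTop atTop → (∀ j, 0 < lam j ∧ lam j < 1) → (∀ j, N j ≤ N (j + 1)) →
  (∀ (j : ℕ) (ω : ℤ → ℤ), (∀ x : ℤ, |ω x| ≤ (N (j + 1) : ℤ)) → ∀ x : ℤ,
    x ∈ Function.periodicPts (stp d m r ω) → (∀ i : ℕ, |x| ≤ |(stp d m r ω)^[i] x|) → X j ≤ |(x : ℝ)| →
      4 / Real.log (1 / lam j) * Real.log (2 + |(x : ℝ)|) + 1 ≤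
        (Function.minimalPeriod (stp d m r ω) x : ℝ)) →
  (∀ x : ℤ, X 0 ≤ |(x : ℝ)| → |ω x| ≤ (N (idx X x) : ℤ)) → (∀ x : ℤ, |(x : ℝ)| < X 0 → ω x = 0) →
  {x : ℤ | X 0 ≤ |(x : ℝ)| ∧ Bad d m r lam X x ω}.Finite →
    ∃ S : ℝ, ∀ x ∈ Function.periodicPts (stp d m r ω), ∃ i : ℕ, |(((stp d m r ω)^[i] x : ℤ) : ℝ)| < S

/-- **LLN** (density zero).  `P(ω_x ≠ 0) = 1 - (μ x).real {0} → 0`, independence: the number of `|x| ≤ N` with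
`ω_x ≠ 0` is almost surely `o(N)`.  Chebyshev (the variance is `≤ 2N+1`) along `N = n^2`, Borel–Cantelli,
monotonicity in between; or a strong law of large numbers for bounded independent variables. -/
def S_LLN : Prop := ∀ (μ : ℤ → Measure ℤ) [∀ x, IsProbabilityMeasure (μ x)],
  Tendsto (fun x => (μ x).real {0}) cofinite (nhds 1) →
    ∀ᵐ ω ∂(Measure.infinitePi μ),
      Tendsto (fun N : ℕ => ({x : ℤ | |x| ≤ (N : ℤ) ∧ ω x ≠ 0}.ncard : ℝ) / N) atTop (nhds 0)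

/-- **SUP** (almost surely all perturbations are in the supports): countably many null sets. -/
def S_SUP : Prop := ∀ (μ : ℤ → Measure ℤ) [∀ x, IsProbabilityMeasure (μ x)] (s : ℤ → Set ℤ),
  (∀ x, μ x (s x) = 0) → ∀ᵐ ω ∂(Measure.infinitePi μ), ∀ x, ω x ∉ s x

/-- the final theorem -/
def S_DZ : Prop := ∀ (d : ℕ) (m r : ℤ → ℤ), Rel d m r → (∏ j ∈ range d, m (j : ℤ)) < (d : ℤ) ^ d →
  ∀ h : ℤ → ℕ, Tendsto h cofinite atTop → ∃ μ : ℤ → Measure ℤ, (∀ x, IsProbabilityMeasure (μ x)) ∧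
    Tendsto (fun x => (μ x).real {0}) cofinite (nhds 1) ∧
    ∀ᵐ ω ∂(Measure.infinitePi μ), (∀ x : ℤ, 0 ≤ ω x ∧ ω x ≤ (h x : ℤ)) ∧
      Tendsto (fun N : ℕ => ({x : ℤ | |x| ≤ (N : ℤ) ∧ ω x ≠ 0}.ncard : ℝ) / N) atTop (nhds 0) ∧
      (Function.periodicPts (stp d m r ω)).Finite ∧
      ∀ x : ℤ, ∃ k : ℕ, (stp d m r ω)^[k] x ∈ Function.periodicPts (stp d m r ω)

end Pool.Agent.U29.DZ
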