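import Pool.Agent.U29.DZ.Asm
import Pool.Agent.U29.CY.Main
import Pool.Agent.U851.DZ.ANAx
import Pool.Agent.U454.DZ.WCx
import Pool.Agent.U858.DZ.AVGx
import Pool.Agent.U770.DZ.PRBx
import Pool.Agent.U394.DZ.SEQ
import Pool.Agent.U857.DZ.THR
import Pool.Agent.U774.DZ.IDX
import Pool.Agent.U978.DZ.BCx
import Pool.Agent.U580.DZ.ORB
import Pool.Agent.U187.DZ.CYCx
import Pool.Agent.U689.DZ.LLN
import Pool.Agent.U694.DZ.SUP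

set_option autoImplicit false

namespace Pool.Agent.U29.DZ

theorem main : S_DZ := asm (Pool.Agent.U851.DZ.t_ANAx Pool.Agent.U891.RP.t_EXP
    Pool.Agent.U165.RP.REC.t_REC (Pool.Agent.U454.DZ.t_WCx Pool.Agent.U858.DZ.t_AVGx))
  Pool.Agent.U770.DZ.t_PRBx Pool.Agent.U394.DZ.t_SEQ
  (Pool.Agent.U857.DZ.t_THR Pool.Agent.U774.DZ.t_IDX) Pool.Agent.U774.DZ.t_IDX
  Pool.Agent.U978.DZ.t_BCx Pool.Agent.U580.DZ.t_ORB Pool.Agent.U187.DZ.t_CYCx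
  Pool.Agent.U689.DZ.t_LLN Pool.Agent.U694.DZ.t_SUP
  (Pool.Agent.U803.CY.t_LEN Pool.Agent.U97.CY.t_RAT Pool.Agent.U605.CY.t_PER)
  Pool.Agent.U461.CY.t_FPP

end Pool.Agent.U29.DZ
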