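import Pool.Agent.U394.DZ.SEQ

/-!
# Project DZ: a slowly varying sequence of non-increasing laws

The sequence of laws of `Pool.Agent.U394.DZ.SEQ` (helper394) consists of convex combinations of `δ_0` and of
uniform laws on initial segments `{0, …, D - 1}`; so the weights are non-increasing on `{0, 1, 2, …}`.
-/

set_option autoImplicit false

namespace Pool.Agent.U29.DZ

open Finset MeasureTheory Filter Pool.Agent.U394.DZ

/-- SEQ with non-increasing laws -/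
def S_SEQ2 : Prop := ∀ (d : ℕ), 2 ≤ d → ∀ (Kf : ℝ → ℕ) (ηf : ℝ → ℝ), (∀ e, 0 < e → e < 1 → 0 < ηf e) →
  ∃ (ν : ℕ → Measure ℤ) (e : ℕ → ℝ) (N : ℕ → ℕ), (∀ j, IsProbabilityMeasure (ν j)) ∧
    (∀ j, 0 < e j ∧ e j < 1) ∧ Tendsto (fun j => (ν j).real {0}) atTop (nhds 1) ∧
    (∀ j, 1 ≤ N j ∧ N j ≤ N (j + 1) ∧ (d : ℕ) ^ Kf (e j) ≤ N j) ∧
    (∀ j, ν j {u : ℤ | u < 0 ∨ (N j : ℤ) ≤ u} = 0) ∧
    (∀ j, ∀ u : ℤ, 0 ≤ u → u < (d : ℤ) ^ Kf (e j) → e j / (d : ℝ) ^ Kf (e j) ≤ (ν j).real {u} ∧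
      e j / (d : ℝ) ^ Kf (e j) ≤ (ν (j + 1)).real {u}) ∧
    (∀ (j B : ℕ), ∑ u ∈ Icc (-(B : ℤ)) B, |(ν j).real {u} - (ν (j + 1)).real {u}| ≤ ηf (e j)) ∧
    ∀ (j : ℕ) (u : ℤ), 0 ≤ u → (ν j).real {u + 1} ≤ (ν j).real {u}

theorem U_anti (D : ℕ) (u : ℤ) (hu : 0 ≤ u) : U D (u + 1) ≤ U D u := by
  by_cases h : u + 1 < (D : ℤ)
  · rw [U_in D (u + 1) (by omega) h, U_in D u hu (by omega)]
  · rw [U_out D (u + 1) (by omega)]
    exact U_nonneg D u

theorem pw_anti {a : ℕ → ℝ} {D : ℕ → ℕ} (ha0 : ∀ t, 0 < a t) (ha1 : ∀ t, a t < 1) (t : ℕ) (u : ℤ)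
    (hu : 0 ≤ u) : pw a D t (u + 1) ≤ pw a D t u := by
  unfold pw
  have := ha0 t
  have := ha1 t
  have e1 := mul_le_mul_of_nonneg_left (U_anti 1 u hu) (by linarith : 0 ≤ 1 - a t)
  have e2 := mul_le_mul_of_nonneg_left (U_anti (D t) u hu) (by linarith : 0 ≤ a t / 2)
  have e3 := mul_le_mul_of_nonneg_left (U_anti (D (t + 1)) u hu) (by linarith : 0 ≤ a t / 2)
  linarith

theorem cw_anti {a : ℕ → ℝ} {D : ℕ → ℕ} (ha0 : ∀ t, 0 < a t) (ha1 : ∀ t, a t < 1) (t : ℕ) (u : ℤ)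
    (l : ℝ) (hl0 : 0 ≤ l) (hl1 : l ≤ 1) (hu : 0 ≤ u) : cw a D l t (u + 1) ≤ cw a D l t u := by
  unfold cw
  have e1 := mul_le_mul_of_nonneg_left (pw_anti (D := D) ha0 ha1 t u hu) (by linarith : 0 ≤ 1 - l)
  have e2 := mul_le_mul_of_nonneg_left (pw_anti (D := D) ha0 ha1 (t + 1) u hu) hl0
  linarith

theorem t_SEQ2 : S_SEQ2 := by
  intro d hd Kf ηf hη
  -- the data of the stages
  obtain ⟨a, ha⟩ : ∃ a : ℕ → ℝ, a = fun t => 1 / (((t + 1 : ℕ) : ℝ) + 1) := ⟨_, rfl⟩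
  have ha0 : ∀ t, 0 < a t := fun t => by rw [ha]; positivity
  have ha1 : ∀ t, a t < 1 := fun t => by
    rw [ha]
    simp only
    rw [div_lt_one (by positivity)]
    push_cast
    have : (0 : ℝ) ≤ t := Nat.cast_nonneg t
    linarith
  have haa : ∀ t, a (t + 1) ≤ a t := fun t => by
    rw [ha]
    simp only
    apply one_div_le_one_div_of_le (by positivity)
    push_cast
    linarith
  have halim : Tendsto a atTop (nhds 0) := by
    rw [ha]
    exact (tendsto_add_atTop_iff_nat (f := fun t : ℕ => 1 / ((t : ℝ) + 1)) 1).2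
      tendsto_one_div_add_atTop_nhds_zero_nat
  set ee : ℕ → ℝ := fun t => a (t + 1) / 2 with hee
  have he0 : ∀ t, 0 < ee t := fun t => by rw [hee]; have := ha0 (t + 1); simp only; linarith
  have he1 : ∀ t, ee t < 1 := fun t => by rw [hee]; have := ha1 (t + 1); have := ha0 (t + 1); simp only; linarith
  obtain ⟨D, hDdef⟩ : ∃ D : ℕ → ℕ, D = fun t => if t = 0 then 1 else d ^ Kf (ee (t - 1)) := ⟨_, rfl⟩
  have hD0 : D 0 = 1 := by rw [hDdef]; simp
  have hDs : ∀ t, D (t + 1) = d ^ Kf (ee t) := fun t => by rw [hDdef]; simp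
  have hD : ∀ t, 1 ≤ D t := by
    intro t
    rcases t with _ | t
    · exact hD0.ge
    · rw [hDs]; exact Nat.one_le_pow _ _ (by omega)
  obtain ⟨n, hndef⟩ : ∃ n : ℕ → ℕ, n = fun t => ⌈2 / ηf (ee t)⌉₊ + 1 := ⟨_, rfl⟩
  have hn : ∀ t, 1 ≤ n t := fun t => by rw [hndef]; simp
  have hnη : ∀ t, 2 * (1 / (n t : ℝ)) ≤ ηf (ee t) := by
    intro t
    have h1 : (0 : ℝ) < ηf (ee t) := hη _ (he0 t) (he1 t)
    have h2 : 2 / ηf (ee t) ≤ (n t : ℝ) := by
      rw [hndef]; push_cast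
      have := Nat.le_ceil (2 / ηf (ee t))
      linarith
    have h3 : (0 : ℝ) < n t := by exact_mod_cast hn t
    rw [mul_one_div, div_le_iff₀ h3]
    rw [div_le_iff₀ h1] at h2
    linarith
  obtain ⟨M, hMdef⟩ : ∃ M : ℕ → ℕ, M = fun t => ∑ s ∈ range (t + 3), D s := ⟨_, rfl⟩
  have hMD : ∀ t s, s < t + 3 → D s ≤ M t := by
    intro t s hs
    rw [hMdef]
    exact single_le_sum (f := D) (fun _ _ => Nat.zero_le _) (mem_range.2 hs)
  have hM1 : ∀ t, 1 ≤ M t := fun t => by have := hMD t 0 (by omega); rw [hD0] at this; exact this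
  have hMm : Monotone M := by
    intro s t hst
    rw [hMdef]
    exact sum_le_sum_of_subset (range_subset_range.2 (by omega))
  -- the sequence
  set S : ℕ → ℕ × ℕ := sq n with hS
  set l : ℕ → ℝ := fun j => ((S j).2 : ℝ) / (n (S j).1 : ℝ) with hl
  have hnpos : ∀ t, (0 : ℝ) < n t := fun t => by exact_mod_cast hn t
  have hl0 : ∀ j, 0 ≤ l j := fun j => by rw [hl]; positivity
  have hl1 : ∀ j, l j ≤ 1 := fun j => by
    rw [hl]; simp only
    rw [div_le_one (hnpos _)]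
    exact_mod_cast (sq_lt n hn j).le
  -- the weights of the state `j + 1` on the segment of the state `j`
  have hnext : ∀ j, ∃ l' : ℝ, 0 ≤ l' ∧ l' ≤ 1 ∧ l' - l j = 1 / (n (S j).1 : ℝ) ∧
      ∀ u, cw a D (l (j + 1)) (S (j + 1)).1 u = cw a D l' (S j).1 u := by
    intro j
    refine ⟨(((S j).2 + 1 : ℕ) : ℝ) / (n (S j).1 : ℝ), by positivity, ?_, ?_, ?_⟩
    · rw [div_le_one (hnpos _)]
      exact_mod_cast (sq_lt n hn j)
    · rw [hl]; simp only; push_cast; ring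
    · intro u
      have hlt := sq_lt n hn j
      by_cases h : (S j).2 + 1 < n (S j).1
      · have e : S (j + 1) = ((S j).1, (S j).2 + 1) := by
          rw [hS] at h ⊢; rw [sq_succ, if_pos h]
        have e1 : (S (j + 1)).1 = (S j).1 := by rw [e]
        have e2 : (S (j + 1)).2 = (S j).2 + 1 := by rw [e]
        have e3 : l (j + 1) = (((S j).2 + 1 : ℕ) : ℝ) / (n (S j).1 : ℝ) := by
          rw [hl]; simp only; rw [e1, e2]
        rw [e3, e1]
      · have e : S (j + 1) = ((S j).1 + 1, 0) := by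
          rw [hS] at h ⊢; rw [sq_succ, if_neg h]
        have e1 : (S (j + 1)).1 = (S j).1 + 1 := by rw [e]
        have e2 : (S (j + 1)).2 = 0 := by rw [e]
        have e3 : l (j + 1) = 0 := by
          rw [hl]; simp only; rw [e2]; simp
        have e4 : (S j).2 + 1 = n (S j).1 := by rw [hS] at h ⊢; omega
        rw [e3, e1, e4, div_self (hnpos _).ne']
        unfold cw
        ring
  have hex : ∀ j, ∃ μ : Measure ℤ, IsProbabilityMeasure μ ∧
      (∀ u : ℤ, μ.real {u} = cw a D (l j) (S j).1 u) ∧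
      μ {u : ℤ | u < 0 ∨ (M (S j).1 : ℤ) ≤ u} = 0 := by
    intro j
    refine exists_measure _ _ (fun u => cw_nonneg ha0 ha1 _ u _ (hl0 j) (hl1 j)) (fun u hu => ?_) ?_
    · exact cw_out _ (M (S j).1) _ (hM1 _) (hMD _ _ (by omega)) (hMD _ _ (by omega))
        (hMD _ _ (by omega)) u hu
    · exact cw_sum hD _ (M (S j).1) _ (hM1 _) (hMD _ _ (by omega)) (hMD _ _ (by omega))
        (hMD _ _ (by omega))
  choose ν hν1 hν2 hν3 using hex
  refine ⟨ν, fun j => ee (S j).1, fun j => M (S j).1, hν1, fun j => ⟨he0 _, he1 _⟩, ?_, ?_, hν3, ?_, ?_,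
    fun j u hu => ?_⟩
  · -- the mass at zero
    have ht : Tendsto (fun j => (S j).1) atTop atTop :=
      tendsto_atTop_atTop_of_monotone (sq_mono n) (sq_unb n hn)
    have h1 : Tendsto (fun j => 1 - a (S j).1) atTop (nhds 1) := by
      have := (tendsto_const_nhds (x := (1 : ℝ))).sub (halim.comp ht)
      rw [sub_zero] at this
      exact this
    refine tendsto_of_tendsto_of_tendsto_of_le_of_le h1 tendsto_const_nhds (fun j => ?_) (fun j => ?_)
    · change 1 - a (S j).1 ≤ (ν j).real {0}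
      rw [hν2]
      exact cw_zero ha0 ha1 haa _ _ (hl0 j) (hl1 j)
    · change (ν j).real {0} ≤ 1
      haveI := hν1 j
      exact measureReal_le_one
  · intro j
    refine ⟨hM1 _, hMm (sq_mono n (Nat.le_succ j)), ?_⟩
    have := hMD (S j).1 ((S j).1 + 1) (by omega)
    rw [hDs] at this
    exact this
  · intro j u hu0 hu1
    have hu1' : u < (D ((S j).1 + 1) : ℤ) := by rw [hDs]; push_cast; exact hu1
    have hc : ((D ((S j).1 + 1) : ℕ) : ℝ) = (d : ℝ) ^ Kf (ee (S j).1) := by rw [hDs]; push_cast; rfl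
    constructor
    · have := cw_low ha0 ha1 haa (S j).1 u (l j) (hl0 j) (hl1 j) hu0 hu1'
      rw [hc] at this
      rw [hν2]
      exact this
    · obtain ⟨l', h0', h1', _, h3'⟩ := hnext j
      have := cw_low ha0 ha1 haa (S j).1 u l' h0' h1' hu0 hu1'
      rw [hc] at this
      rw [hν2, h3']
      exact this
  · intro j B
    obtain ⟨l', h0', h1', h2', h3'⟩ := hnext j
    have h := cw_diff (D := D) ha0 ha1 (S j).1 (l j) l' (Icc (-(B : ℤ)) B)
    have e : |l j - l'| = 1 / (n (S j).1 : ℝ) := by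
      rw [abs_sub_comm, h2', abs_of_nonneg (by positivity)]
    rw [e] at h
    refine le_trans (le_of_eq ?_) (h.trans (hnη _))
    refine sum_congr rfl fun u _ => ?_
    rw [hν2, hν2, h3']
  · rw [hν2, hν2]
    exact cw_anti ha0 ha1 _ _ _ (hl0 j) (hl1 j) hu


end Pool.Agent.U29.DZ
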